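import Mathlib
import Pool.Agent.H358R3.WkFinal

/-!
One direction of the question: over every field of characteristic zero, every variety of
associative algebras which contains the variety `W_K` of the identities `x[y,z][t,u]v = 0`,
`x[y,z,t]u = 0` has a finitely presented algebra with undecidable word problem. One finite list of
generators and relations serves all fields and all such varieties.

Idea. For a generalised Collatz map `N = m k + b ↦ a_b k + e_b` (`b < m`) with undecidable halting
problem take generators `x, y, dx, dy, u, s, s_b, k_b, k'_b` and the relations `xy = yx`,
`dx y = y dx`, `dy x = x dy`, `dx u = dy u = 0`, `s x^m = s y`, `s_b x^{a_b} = s_b y`,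
`k'_b dy = s - s_b`, `k_b dx = s_b x^{e_b} - s x^b` (`k_b dx = s x^b` for a halting residue `b`).
Then `s x^N u = 0` whenever `N` halts. If `N` does not halt, this fails in an algebra of
4 × 4 matrices over the linear operators of `K[x, y]`, in which `x, y` act as multiplications on two
places, `dx, dy` as the Euler operators `x ∂/∂x`, `y ∂/∂y` from one place to the other, and the
other generators as operators with values in the constants.
-/

universe u

namespace Pool.Agent.Results.MP_f5ceca_al.ContainsW

open Pool.Agent.H358R3.EqP Pool.Agent.H358R3.Wk

/-- **Main theorem.** There are a number `k` and a finite list `R` of polynomials with rational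
coefficients in `x_0, …, x_{k-1}` such that for each field `K` of characteristic zero, each set `I`
of identities whose variety contains `W_K`, and each coding `ν` of elements of `K` by natural
numbers in which `1` has a code, there is no algorithm which decides for a polynomial `g` in
`x_0, …, x_{k-1}` with coded coefficients whether `g = 0` in the algebra which the generators
`x_0, …, x_{k-1}` and the relations `R` present in the variety of the identities `I`. -/
theorem result : ∃ (k : ℕ) (R : List (NPoly (Bool × ℕ × ℕ))), (∀ p ∈ R, VarsLt k p) ∧
    ∀ (K : Type u) [Field K] [CharZero K] (I : Set (NPoly K)),
      (∀ (A : Type u) [NonUnitalRing A] [Module K A] [IsScalarTower K A A]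
        [SMulCommClass K A A], InW A → InV I A) →
      ∀ ν : ℕ → K, 1 ∈ Set.range ν →
        ¬ ComputablePred fun g : NPoly ℕ =>
          VarsLt k g ∧ ZeroIn I (R.map (toF K)) (dec ν g) :=
  main

end Pool.Agent.Results.MP_f5ceca_al.ContainsW
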